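import Pool.Agent.P8H5.TU.Alg
import Pool.Agent.P8H67.TU.Stm3

/-!
Project TU, package FLOWR: the flow of a commutative normal group of affine maps whose linear parts have
positive real eigenvalues (adapted from `Pool.Agent.P8H5.TU.Flow`).
-/

set_option autoImplicit false

open Set Filter Topology

namespace Pool.Agent.P8H84.TU

open Pool.Agent.P8H67.TU
open Pool.Agent.P8H5.TU (exp_add' exp_conj' ln ln_apply aff_eq hmm hmm_apply hmm_point hmm_mul hmm_one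
  hu hu_val hu_inv)

/-! ## generalized eigenspaces -/

section Gen
variable {V W : Type} [NormedAddCommGroup V] [NormedSpace ℝ V] [NormedAddCommGroup W]
  [NormedSpace ℝ W]

theorem semi_pow (ι : V →ₗ[ℝ] W) (A : V →ₗ[ℝ] V) (T : W →ₗ[ℝ] W) (h : ∀ v, T (ι v) = ι (A v))
    (μ : ℝ) (k : ℕ) : ∀ v, ((T - μ • (1 : Module.End ℝ W)) ^ k) (ι v) =
      ι (((A - μ • (1 : Module.End ℝ V)) ^ k) v) := by
  induction k with
  | zero => intro v; rfl
  | succ k ih =>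
    intro v
    rw [pow_succ, pow_succ]
    show ((T - μ • (1 : Module.End ℝ W)) ^ k) (T (ι v) - μ • ι v) =
      ι (((A - μ • (1 : Module.End ℝ V)) ^ k) (A v - μ • v))
    rw [← ih, h, map_sub ι, map_smul ι]

theorem semi (ι : V →ₗ[ℝ] W) (A : V →ₗ[ℝ] V) (T : W →ₗ[ℝ] W) (h : ∀ v, T (ι v) = ι (A v))
    (μ : ℝ) (v : V) (hv : v ∈ Module.End.maxGenEigenspace A μ) :
    ι v ∈ Module.End.maxGenEigenspace T μ := by
  rw [Module.End.mem_maxGenEigenspace] at hv ⊢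
  obtain ⟨k, hk⟩ := hv
  exact ⟨k, by rw [semi_pow ι A T h, hk, map_zero]⟩

/-- `A - 1` is onto the generalized eigenspace of `μ ≠ 1` -/
theorem onto (A : V →ₗ[ℝ] V) (μ : ℝ) (hμ : μ ≠ 1) (k : ℕ) :
    ∀ w : V, ((A - μ • (1 : Module.End ℝ V)) ^ k) w = 0 → ∃ w', A w' - w' = w := by
  induction k with
  | zero =>
    intro w hw
    refine ⟨0, ?_⟩
    have : w = 0 := hw
    rw [this, map_zero, sub_zero]
  | succ k ih =>
    intro w hw
    rw [pow_succ] at hw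
    obtain ⟨w', hw'⟩ := ih (A w - μ • w) hw
    have hc : μ - 1 ≠ 0 := sub_ne_zero.mpr hμ
    refine ⟨(μ - 1)⁻¹ • (w - w'), ?_⟩
    have h1 : A (w - w') - (w - w') = (μ - 1) • w := by
      have : A (w - w') - (w - w') = (A w - w) - (A w' - w') := by
        rw [map_sub]; abel
      rw [this, hw', sub_smul, one_smul]; abel
    rw [map_smul, ← smul_sub, h1, smul_smul, inv_mul_cancel₀ hc, one_smul]

end Gen

section Ex
variable {W : Type} [NormedAddCommGroup W] [NormedSpace ℝ W] [CompleteSpace W]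

theorem exp_phi (a : W →L[ℝ] W) (φ : W →L[ℝ] ℝ) (c : ℝ) (h : ∀ x, φ (a x) = c * φ x) (x : W) :
    φ (NormedSpace.exp a x) = Real.exp c * φ x := by
  have h0 : ∀ (n : ℕ), φ ((a ^ n) x) = c ^ n * φ x := by
    intro n
    induction n with
    | zero => rw [pow_zero, pow_zero, one_mul]; rfl
    | succ n ih =>
      rw [pow_succ', pow_succ']
      show φ (a ((a ^ n) x)) = _
      rw [h, ih, mul_assoc]
  let ev : (W →L[ℝ] W) →L[ℝ] ℝ := φ.comp (ContinuousLinearMap.apply ℝ W x)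
  have h1 : HasSum (fun n : ℕ => ((n.factorial : ℝ)⁻¹) • a ^ n) (NormedSpace.exp a) :=
    NormedSpace.exp_series_hasSum_exp' (𝕂 := ℝ) a
  have h2 := ev.hasSum h1
  have h3 : HasSum (fun n : ℕ => ((n.factorial : ℝ)⁻¹) • c ^ n) (NormedSpace.exp c) :=
    NormedSpace.exp_series_hasSum_exp' (𝕂 := ℝ) c
  have h4 := h3.mul_right (φ x)
  have h5 : (fun n : ℕ => ev (((n.factorial : ℝ)⁻¹) • a ^ n)) =
      fun n : ℕ => ((n.factorial : ℝ)⁻¹) • c ^ n * φ x := by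
    funext n
    rw [map_smul]
    show _ • φ ((a ^ n) x) = _
    rw [h0, smul_mul_assoc]
  have h6 : HasSum (fun n : ℕ => ((n.factorial : ℝ)⁻¹) • c ^ n * φ x) (ev (NormedSpace.exp a)) := by
    rw [← h5]; exact h2
  have h7 := h6.unique h4
  rw [Real.exp_eq_exp_ℝ]
  exact h7

theorem fix_of' (a : W →L[ℝ] W) (q : W) (h : a q = 0) : NormedSpace.exp a q = q := by
  let ev : (W →L[ℝ] W) →L[ℝ] W := ContinuousLinearMap.apply ℝ W q
  have h1 : HasSum (fun n : ℕ => ((n.factorial : ℝ)⁻¹) • a ^ n) (NormedSpace.exp a) :=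
    NormedSpace.exp_series_hasSum_exp' (𝕂 := ℝ) a
  have h2 := ev.hasSum h1
  have h3 : ∀ n : ℕ, n ≠ 0 → ev (((n.factorial : ℝ)⁻¹) • a ^ n) = 0 := by
    intro n hn
    obtain ⟨m, rfl⟩ := Nat.exists_eq_succ_of_ne_zero hn
    rw [map_smul, pow_succ]
    show _ • (a ^ m) (a q) = 0
    rw [h, map_zero, smul_zero]
  have h4 : HasSum (fun n : ℕ => ev (((n.factorial : ℝ)⁻¹) • a ^ n))
      (ev ((((0 : ℕ).factorial : ℝ)⁻¹) • a ^ 0)) := hasSum_single 0 h3
  have h5 := h2.unique h4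
  have h6 : ev ((((0 : ℕ).factorial : ℝ)⁻¹) • a ^ 0) = q := by
    rw [Nat.factorial_zero, Nat.cast_one, inv_one, one_smul, pow_zero]
    rfl
  rw [h6] at h5
  exact h5

end Ex

theorem pos_hmm {E : Type} [NormedAddCommGroup E] [NormedSpace ℝ E] [FiniteDimensional ℝ E]
    (g : E ≃ᵃ[ℝ] E) (h : PosSpec (g.linear : E →ₗ[ℝ] E)) :
    PosSpec ((hmm g : (E × ℝ) →L[ℝ] (E × ℝ)) : (E × ℝ) →ₗ[ℝ] (E × ℝ)) := by
  let A : E →ₗ[ℝ] E := (g.linear : E →ₗ[ℝ] E)
  let T : (E × ℝ) →ₗ[ℝ] (E × ℝ) := ((hmm g : (E × ℝ) →L[ℝ] (E × ℝ)) : (E × ℝ) →ₗ[ℝ] (E × ℝ))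
  let ι : E →ₗ[ℝ] (E × ℝ) := LinearMap.inl ℝ E ℝ
  have hι : ∀ v, T (ι v) = ι (A v) := by
    intro v
    refine Prod.ext ?_ rfl
    show ln g v + (0 : ℝ) • g 0 = A v
    rw [zero_smul, add_zero]
    rfl
  let P : Submodule ℝ (E × ℝ) := ⨆ μ : {μ : ℝ // 0 < μ}, Module.End.maxGenEigenspace T μ
  have h1 : ∀ v, ι v ∈ P := by
    intro v
    have hv : v ∈ ⨆ μ : {μ : ℝ // 0 < μ}, Module.End.maxGenEigenspace A μ := by
      have h' : ⨆ μ : {μ : ℝ // 0 < μ}, Module.End.maxGenEigenspace A μ = ⊤ := h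
      rw [h']; trivial
    refine Submodule.iSup_induction (p := fun μ : {μ : ℝ // 0 < μ} =>
      Module.End.maxGenEigenspace A μ) (motive := fun v => ι v ∈ P) hv ?_ ?_ ?_
    · intro μ x hx
      exact (le_iSup (fun μ : {μ : ℝ // 0 < μ} => Module.End.maxGenEigenspace T μ) μ)
        (semi ι A T hι μ x hx)
    · show ι 0 ∈ P
      rw [map_zero]; exact Submodule.zero_mem _
    · intro x y hx hy
      show ι (x + y) ∈ P
      rw [map_add]; exact Submodule.add_mem _ hx hy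
  have h2 : ∀ v : E, ∃ w, v - (A w - w) ∈ Module.End.maxGenEigenspace A (1 : ℝ) := by
    intro v
    have hv : v ∈ ⨆ μ : {μ : ℝ // 0 < μ}, Module.End.maxGenEigenspace A μ := by
      have h' : ⨆ μ : {μ : ℝ // 0 < μ}, Module.End.maxGenEigenspace A μ = ⊤ := h
      rw [h']; trivial
    refine Submodule.iSup_induction (p := fun μ : {μ : ℝ // 0 < μ} =>
      Module.End.maxGenEigenspace A μ) (motive := fun v => ∃ w, v - (A w - w) ∈
        Module.End.maxGenEigenspace A (1 : ℝ)) hv ?_ ?_ ?_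
    · intro μ x hx
      by_cases hm : (μ : ℝ) = 1
      · refine ⟨0, ?_⟩
        rw [map_zero, sub_zero, sub_zero]
        rw [hm] at hx
        exact hx
      · rw [Module.End.mem_maxGenEigenspace] at hx
        obtain ⟨k, hk⟩ := hx
        obtain ⟨w, hw⟩ := onto A μ hm k x hk
        refine ⟨w, ?_⟩
        rw [hw, sub_self]; exact Submodule.zero_mem _
    · refine ⟨0, ?_⟩
      rw [map_zero, sub_zero, sub_zero]; exact Submodule.zero_mem _
    · rintro x y ⟨w, hw⟩ ⟨w', hw'⟩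
      refine ⟨w + w', ?_⟩
      have : x + y - (A (w + w') - (w + w')) = (x - (A w - w)) + (y - (A w' - w')) := by
        rw [map_add]; abel
      rw [this]; exact Submodule.add_mem _ hw hw'
  obtain ⟨w, hw⟩ := h2 (g 0)
  have h3 : ((0 : E), (1 : ℝ)) - ι w ∈ Module.End.maxGenEigenspace T (1 : ℝ) := by
    have h4 := semi ι A T hι 1 _ hw
    rw [Module.End.mem_maxGenEigenspace] at h4 ⊢
    obtain ⟨k, hk⟩ := h4
    refine ⟨k + 1, ?_⟩
    rw [pow_succ]
    show ((T - (1 : ℝ) • (1 : Module.End ℝ (E × ℝ))) ^ k)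
      (T (((0 : E), (1 : ℝ)) - ι w) - (1 : ℝ) • (((0 : E), (1 : ℝ)) - ι w)) = 0
    have h5 : T (((0 : E), (1 : ℝ)) - ι w) - (1 : ℝ) • (((0 : E), (1 : ℝ)) - ι w) =
        ι (g 0 - (A w - w)) := by
      have h6 : T ((0 : E), (1 : ℝ)) = ι (g 0) + ((0 : E), (1 : ℝ)) := by
        refine Prod.ext ?_ ?_
        · show ln g 0 + (1 : ℝ) • g 0 = g 0 + 0
          rw [map_zero, zero_add, one_smul, add_zero]
        · show (1 : ℝ) = 0 + 1
          rw [zero_add]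
      rw [one_smul, map_sub T, h6, hι, map_sub ι, map_sub ι]
      abel
    rw [h5, hk]
  have h7 : ((0 : E), (1 : ℝ)) ∈ P := by
    have h8 : ((0 : E), (1 : ℝ)) - ι w ∈ P :=
      (le_iSup (fun μ : {μ : ℝ // 0 < μ} => Module.End.maxGenEigenspace T μ) ⟨1, one_pos⟩) h3
    have h9 := Submodule.add_mem _ h8 (h1 w)
    rwa [sub_add_cancel] at h9
  show P = ⊤
  rw [eq_top_iff]
  intro x _
  have h10 : x = ι x.1 + x.2 • ((0 : E), (1 : ℝ)) := by
    refine Prod.ext ?_ ?_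
    · show x.1 = x.1 + x.2 • (0 : E)
      rw [smul_zero, add_zero]
    · show x.2 = 0 + x.2 * 1
      ring
  rw [h10]
  exact Submodule.add_mem _ (h1 _) (Submodule.smul_mem _ _ h7)

theorem real_zero {W : Type} [NormedAddCommGroup W] [NormedSpace ℝ W] :
    RealSpec ((0 : W →L[ℝ] W) : W →ₗ[ℝ] W) := by
  show _ = ⊤
  rw [eq_top_iff]
  intro x _
  refine (le_iSup (fun μ : ℝ => Module.End.maxGenEigenspace ((0 : W →L[ℝ] W) : W →ₗ[ℝ] W) μ) 0) ?_
  rw [Module.End.mem_maxGenEigenspace]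
  refine ⟨1, ?_⟩
  rw [pow_one]
  show (0 : W) - (0 : ℝ) • x = 0
  rw [zero_smul, sub_zero]

theorem real_conj {W : Type} [NormedAddCommGroup W] [NormedSpace ℝ W]
    (u : (W →L[ℝ] W)ˣ) (l : W →L[ℝ] W) (h : RealSpec (l : W →ₗ[ℝ] W)) :
    RealSpec (((u : W →L[ℝ] W) * l * (u⁻¹ : (W →L[ℝ] W)ˣ) : W →L[ℝ] W) : W →ₗ[ℝ] W) := by
  let ι : W →ₗ[ℝ] W := ((u : W →L[ℝ] W) : W →ₗ[ℝ] W)
  let A : W →ₗ[ℝ] W := (l : W →ₗ[ℝ] W)
  let T : W →ₗ[ℝ] W :=
    (((u : W →L[ℝ] W) * l * (u⁻¹ : (W →L[ℝ] W)ˣ) : W →L[ℝ] W) : W →ₗ[ℝ] W)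
  have hι : ∀ v, T (ι v) = ι (A v) := by
    intro v
    show (u : W →L[ℝ] W) (l (((u⁻¹ : (W →L[ℝ] W)ˣ) * (u : W →L[ℝ] W) : W →L[ℝ] W) v)) =
      (u : W →L[ℝ] W) (l v)
    rw [Units.inv_mul]
    rfl
  show ⨆ μ : ℝ, Module.End.maxGenEigenspace T μ = ⊤
  rw [eq_top_iff]
  intro x _
  have h1 : ∀ v, ι v ∈ ⨆ μ : ℝ, Module.End.maxGenEigenspace T μ := by
    intro v
    have hv : v ∈ ⨆ μ : ℝ, Module.End.maxGenEigenspace A μ := by
      have h' : ⨆ μ : ℝ, Module.End.maxGenEigenspace A μ = ⊤ := h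
      rw [h']; trivial
    refine Submodule.iSup_induction (p := fun μ : ℝ =>
      Module.End.maxGenEigenspace A μ) (motive := fun v => ι v ∈
        ⨆ μ : ℝ, Module.End.maxGenEigenspace T μ) hv ?_ ?_ ?_
    · intro μ x hx
      exact (le_iSup (fun μ : ℝ => Module.End.maxGenEigenspace T μ) μ)
        (semi ι A T hι μ x hx)
    · show ι 0 ∈ _
      rw [map_zero]; exact Submodule.zero_mem _
    · intro x y hx hy
      show ι (x + y) ∈ _
      rw [map_add]; exact Submodule.add_mem _ hx hy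
  have h2 : x = ι (((u⁻¹ : (W →L[ℝ] W)ˣ) : W →L[ℝ] W) x) := by
    show x = ((u : W →L[ℝ] W) * ((u⁻¹ : (W →L[ℝ] W)ˣ) : W →L[ℝ] W)) x
    rw [Units.mul_inv]
    rfl
  rw [h2]
  exact h1 _

section
variable {E Γ : Type} [NormedAddCommGroup E] [NormedSpace ℝ E] [FiniteDimensional ℝ E] [Group Γ]

/-- the algebra of the endomorphisms of `E × ℝ` -/
abbrev RR (E : Type) [NormedAddCommGroup E] [NormedSpace ℝ E] := (E × ℝ) →L[ℝ] (E × ℝ)

/-- the set of the logarithms -/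
def LS (hol : Γ →* (E ≃ᵃ[ℝ] E)) (N : Subgroup Γ) : Set (RR E) :=
  {l | RealSpec (l : (E × ℝ) →ₗ[ℝ] (E × ℝ)) ∧ (∀ x, (l x).2 = 0) ∧ ∃ ν ∈ N, NormedSpace.exp l = hmm (hol ν) ∧
    ∀ y : RR E, Commute (hmm (hol ν)) y → Commute l y}

theorem lg (hlog : S_LOG) (hlr : S_LOGR) (g : E ≃ᵃ[ℝ] E)
    (h : PosSpec (g.linear : E →ₗ[ℝ] E)) :
    ∃ l : RR E, RealSpec (l : (E × ℝ) →ₗ[ℝ] (E × ℝ)) ∧ (∀ x, (l x).2 = 0) ∧
      NormedSpace.exp l = hmm g ∧ ∀ y : RR E, Commute (hmm g) y → Commute l y := by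
  have : CompleteSpace (E × ℝ) := FiniteDimensional.complete ℝ _
  obtain ⟨l, h1, h2, h3, h4⟩ := hlr hlog (E × ℝ) (hmm g) (pos_hmm g h)
  refine ⟨l, h1, ?_, h2, ?_⟩
  · have h5 : ∀ v : E, (l (v, 0)).2 = 0 := by
      intro v
      have h6 := h4 (LinearMap.ker (LinearMap.snd ℝ E ℝ)) (fun q hq => by
        rw [LinearMap.mem_ker] at hq ⊢
        exact hq) (v, 0) (by rw [LinearMap.mem_ker]; rfl)
      rw [LinearMap.mem_ker] at h6
      exact h6
    have h7 : ∀ x, (ContinuousLinearMap.snd ℝ E ℝ) (l x) =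
        (l ((0 : E), (1 : ℝ))).2 * (ContinuousLinearMap.snd ℝ E ℝ) x := by
      intro x
      have h8 : x = (x.1, 0) + x.2 • ((0 : E), (1 : ℝ)) := by
        refine Prod.ext ?_ ?_
        · show x.1 = x.1 + x.2 • (0 : E)
          rw [smul_zero, add_zero]
        · show x.2 = 0 + x.2 * 1
          ring
      have h9 : l x = l (x.1, 0) + x.2 • l ((0 : E), (1 : ℝ)) := by
        rw [← map_smul, ← map_add, ← h8]
      rw [h9]
      show (l (x.1, 0)).2 + x.2 * (l ((0 : E), (1 : ℝ))).2 = (l ((0 : E), (1 : ℝ))).2 * x.2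
      rw [h5, zero_add, mul_comm]
    have h10 := exp_phi l (ContinuousLinearMap.snd ℝ E ℝ) _ h7 ((0 : E), (1 : ℝ))
    rw [h2] at h10
    have h11 : (1 : ℝ) = Real.exp ((l ((0 : E), (1 : ℝ))).2) * 1 := h10
    rw [mul_one] at h11
    have h12 : (l ((0 : E), (1 : ℝ))).2 = 0 := Real.exp_eq_one_iff _ |>.mp h11.symm
    intro x
    have h13 := h7 x
    rw [h12, zero_mul] at h13
    exact h13
  · intro y hy
    exact (h3 y hy.symm.eq).symm

theorem ls_comm (hol : Γ →* (E ≃ᵃ[ℝ] E)) (N : Subgroup Γ)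
    (hN : ∀ a ∈ N, ∀ b ∈ N, a * b = b * a) (l l' : RR E) (h : l ∈ LS hol N) (h' : l' ∈ LS hol N) :
    Commute l l' := by
  obtain ⟨_, _, ν, hν, _, hc⟩ := h
  obtain ⟨_, _, ν', hν', _, hc'⟩ := h'
  have h1 : Commute (hmm (hol ν)) (hmm (hol ν')) := by
    show hmm (hol ν) * hmm (hol ν') = hmm (hol ν') * hmm (hol ν)
    rw [← hmm_mul, ← hmm_mul, ← map_mul, ← map_mul, hN ν hν ν' hν']
  exact (hc' l (hc _ h1).symm).symm

theorem ls_conj (hol : Γ →* (E ≃ᵃ[ℝ] E)) (N : Subgroup Γ) [N.Normal] (γ : Γ) (l : RR E)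
    (h : l ∈ LS hol N) :
    (hu (hol γ) : RR E) * l * ((hu (hol γ))⁻¹ : (RR E)ˣ) ∈ LS hol N := by
  have : CompleteSpace (E × ℝ) := FiniteDimensional.complete ℝ _
  obtain ⟨hr, hs, ν, hν, he, hc⟩ := h
  refine ⟨real_conj _ _ hr, ?_, γ * ν * γ⁻¹, ‹N.Normal›.conj_mem ν hν γ, ?_, ?_⟩
  · intro x
    show (l ((((hu (hol γ))⁻¹ : (RR E)ˣ) : RR E) x)).2 = 0
    exact hs _
  · rw [exp_conj', he, map_mul, map_mul, hmm_mul, hmm_mul, hu_val, hu_inv, map_inv]
  · intro y hy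
    have h1 : hmm (hol (γ * ν * γ⁻¹)) =
        (hu (hol γ) : RR E) * hmm (hol ν) * ((hu (hol γ))⁻¹ : (RR E)ˣ) := by
      rw [map_mul, map_mul, hmm_mul, hmm_mul, hu_val, hu_inv, map_inv]
    rw [h1] at hy
    generalize hu (hol γ) = u at hy ⊢
    have h2 : Commute (hmm (hol ν)) ((u⁻¹ : (RR E)ˣ) * y * u) := by
      have h3 : (u : RR E) * hmm (hol ν) * (u⁻¹ : (RR E)ˣ) * y =
        y * ((u : RR E) * hmm (hol ν) * (u⁻¹ : (RR E)ˣ)) := hy
      show hmm (hol ν) * ((u⁻¹ : (RR E)ˣ) * y * u) = (u⁻¹ : (RR E)ˣ) * y * u * hmm (hol ν)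
      calc hmm (hol ν) * ((u⁻¹ : (RR E)ˣ) * y * u)
          = (u⁻¹ : (RR E)ˣ) * ((u : RR E) * hmm (hol ν) * (u⁻¹ : (RR E)ˣ) * y) * u := by
            simp only [mul_assoc, Units.inv_mul_cancel_left]
        _ = (u⁻¹ : (RR E)ˣ) * y * u * hmm (hol ν) := by
            rw [h3]
            simp only [mul_assoc, Units.inv_mul, mul_one]
    have h4 := hc _ h2
    have h5 : l * ((u⁻¹ : (RR E)ˣ) * y * u) = (u⁻¹ : (RR E)ˣ) * y * u * l := h4
    show (u : RR E) * l * (u⁻¹ : (RR E)ˣ) * y = y * ((u : RR E) * l * (u⁻¹ : (RR E)ˣ))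
    calc (u : RR E) * l * (u⁻¹ : (RR E)ˣ) * y
        = u * (l * ((u⁻¹ : (RR E)ˣ) * y * u)) * (u⁻¹ : (RR E)ˣ) := by
          simp only [mul_assoc, Units.mul_inv, mul_one]
      _ = y * ((u : RR E) * l * (u⁻¹ : (RR E)ˣ)) := by
          rw [h5]
          simp only [mul_assoc, Units.mul_inv_cancel_left]

/-- the span of the logarithms -/
def AA (hol : Γ →* (E ≃ᵃ[ℝ] E)) (N : Subgroup Γ) : Submodule ℝ (RR E) := Submodule.span ℝ (LS hol N)

theorem aa_comm (hol : Γ →* (E ≃ᵃ[ℝ] E)) (N : Subgroup Γ)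
    (hN : ∀ a ∈ N, ∀ b ∈ N, a * b = b * a) (a b : RR E) (ha : a ∈ AA hol N) (hb : b ∈ AA hol N) :
    Commute a b := by
  have h1 : ∀ l ∈ LS hol N, ∀ b ∈ AA hol N, Commute l b := by
    intro l hl b hb
    refine Submodule.span_induction (p := fun b _ => Commute l b)
      (fun x hx => ls_comm hol N hN l x hl hx) (Commute.zero_right l)
      (fun x y _ _ h1 h2 => h1.add_right h2) (fun r x _ h1 => h1.smul_right r) hb
  exact Submodule.span_induction (p := fun a _ => Commute a b)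
      (fun x hx => h1 x hx b hb) (Commute.zero_left b)
      (fun x y _ _ h1 h2 => h1.add_left h2) (fun r x _ h1 => h1.smul_left r) ha

theorem aa_real (hrsp : S_RSP) (hol : Γ →* (E ≃ᵃ[ℝ] E)) (N : Subgroup Γ)
    (hN : ∀ a ∈ N, ∀ b ∈ N, a * b = b * a) (a : RR E) (ha : a ∈ AA hol N) :
    RealSpec (a : (E × ℝ) →ₗ[ℝ] (E × ℝ)) := by
  refine Submodule.span_induction
      (p := fun (a : RR E) _ => RealSpec ((a : RR E) : (E × ℝ) →ₗ[ℝ] (E × ℝ)))
      (fun x hx => hx.1) real_zero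
      (fun x y hx hy h1 h2 => (hrsp (E × ℝ)).1 x y (aa_comm hol N hN x y hx hy) h1 h2)
      (fun r x _ h1 => (hrsp (E × ℝ)).2.1 r x h1) ha

theorem aa_snd (hol : Γ →* (E ≃ᵃ[ℝ] E)) (N : Subgroup Γ) (a : RR E) (ha : a ∈ AA hol N) :
    ∀ x, (a x).2 = 0 := by
  refine Submodule.span_induction (p := fun a _ => ∀ x, (a x).2 = 0)
      (fun x hx => hx.2.1) (fun x => rfl)
      (fun x y _ _ h1 h2 t => ?_) (fun r x _ h1 t => ?_) ha
  · show (x t).2 + (y t).2 = 0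
    rw [h1, h2, add_zero]
  · show r * (x t).2 = 0
    rw [h1, mul_zero]

theorem aa_conj (hol : Γ →* (E ≃ᵃ[ℝ] E)) (N : Subgroup Γ) [N.Normal] (γ : Γ) (a : RR E)
    (ha : a ∈ AA hol N) :
    (hu (hol γ) : RR E) * a * ((hu (hol γ))⁻¹ : (RR E)ˣ) ∈ AA hol N := by
  refine Submodule.span_induction
      (p := fun a _ => (hu (hol γ) : RR E) * a * ((hu (hol γ))⁻¹ : (RR E)ˣ) ∈ AA hol N)
      (fun x hx => Submodule.subset_span (ls_conj hol N γ x hx)) ?_
      (fun x y _ _ h1 h2 => ?_) (fun r x _ h1 => ?_) ha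
  · rw [mul_zero, zero_mul]; exact Submodule.zero_mem _
  · rw [mul_add, add_mul]; exact Submodule.add_mem _ h1 h2
  · rw [mul_smul_comm, smul_mul_assoc]; exact Submodule.smul_mem _ r h1

/-- conjugation on the span of the logarithms -/
noncomputable def cj (hol : Γ →* (E ≃ᵃ[ℝ] E)) (N : Subgroup Γ) [N.Normal] :
    Γ →* Module.End ℝ (AA hol N) where
  toFun γ :=
    { toFun := fun a => ⟨_, aa_conj hol N γ a.1 a.2⟩
      map_add' := fun a b => Subtype.ext (by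
        show (hu (hol γ) : RR E) * (a.1 + b.1) * ((hu (hol γ))⁻¹ : (RR E)ˣ) =
          (hu (hol γ) : RR E) * a.1 * ((hu (hol γ))⁻¹ : (RR E)ˣ) +
          (hu (hol γ) : RR E) * b.1 * ((hu (hol γ))⁻¹ : (RR E)ˣ)
        rw [mul_add, add_mul])
      map_smul' := fun r a => Subtype.ext (by
        show (hu (hol γ) : RR E) * (r • a.1) * ((hu (hol γ))⁻¹ : (RR E)ˣ) =
          r • ((hu (hol γ) : RR E) * a.1 * ((hu (hol γ))⁻¹ : (RR E)ˣ))
        rw [mul_smul_comm, smul_mul_assoc]) }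
  map_one' := LinearMap.ext fun a => Subtype.ext (by
    show (hu (hol 1) : RR E) * a.1 * ((hu (hol 1))⁻¹ : (RR E)ˣ) = a.1
    rw [map_one, map_one, inv_one, Units.val_one, one_mul, mul_one])
  map_mul' γ δ := LinearMap.ext fun a => Subtype.ext (by
    show (hu (hol (γ * δ)) : RR E) * a.1 * ((hu (hol (γ * δ)))⁻¹ : (RR E)ˣ) =
      (hu (hol γ) : RR E) * ((hu (hol δ) : RR E) * a.1 * ((hu (hol δ))⁻¹ : (RR E)ˣ)) *
        ((hu (hol γ))⁻¹ : (RR E)ˣ)
    rw [map_mul, map_mul, mul_inv_rev, Units.val_mul, Units.val_mul]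
    simp only [mul_assoc])

theorem cj_val (hol : Γ →* (E ≃ᵃ[ℝ] E)) (N : Subgroup Γ) [N.Normal] (γ : Γ) (a : AA hol N) :
    ((cj hol N γ a : AA hol N) : RR E) =
      (hu (hol γ) : RR E) * a.1 * ((hu (hol γ))⁻¹ : (RR E)ˣ) := rfl

/-- the representation on `ℝ^d` -/
noncomputable def th (hol : Γ →* (E ≃ᵃ[ℝ] E)) (N : Subgroup Γ) [N.Normal] {V : Type}
    [AddCommGroup V] [Module ℝ V] (e : V ≃ₗ[ℝ] AA hol N) : Γ →* (V ≃ₗ[ℝ] V) :=
  (LinearMap.GeneralLinearGroup.generalLinearEquiv ℝ V).toMonoidHom.comp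
    (MonoidHom.toHomUnits
      { toFun := fun γ => (e.symm : AA hol N →ₗ[ℝ] V) ∘ₗ (cj hol N γ) ∘ₗ (e : V →ₗ[ℝ] AA hol N)
        map_one' := LinearMap.ext fun a => by
          show e.symm (cj hol N 1 (e a)) = a
          rw [map_one]
          exact e.symm_apply_apply a
        map_mul' := fun γ δ => LinearMap.ext fun a => by
          show e.symm (cj hol N (γ * δ) (e a)) = e.symm (cj hol N γ (e (e.symm (cj hol N δ (e a)))))
          rw [map_mul, e.apply_symm_apply]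
          rfl })

theorem th_apply (hol : Γ →* (E ≃ᵃ[ℝ] E)) (N : Subgroup Γ) [N.Normal] {V : Type}
    [AddCommGroup V] [Module ℝ V] (e : V ≃ₗ[ℝ] AA hol N) (γ : Γ) (a : V) :
    e (th hol N e γ a) = cj hol N γ (e a) := by
  show e (e.symm (cj hol N γ (e a))) = _
  exact e.apply_symm_apply _

theorem eb (M : Type) [AddCommGroup M] [Module ℝ M] [FiniteDimensional ℝ M]
    (A : Submodule ℝ M) : ∃ d : ℕ, Nonempty ((Fin d → ℝ) ≃ₗ[ℝ] A) :=
  ⟨_, ⟨(Module.finBasis ℝ A).equivFun.symm⟩⟩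

end

theorem flowr : S_FLOWR := by
  intro hlog hlr hrsp E Γ _ _ _ _ hol N _ hN hu'
  have : CompleteSpace (E × ℝ) := FiniteDimensional.complete ℝ _
  obtain ⟨d, ⟨e⟩⟩ := eb (RR E) (AA hol N)
  let e' : (Fin d → ℝ) →L[ℝ] RR E :=
    LinearMap.toContinuousLinearMap ((AA hol N).subtype ∘ₗ (e : (Fin d → ℝ) →ₗ[ℝ] AA hol N))
  have he' : ∀ a, e' a = (e a : RR E) := fun a => rfl
  have hreal : ∀ a, RealSpec ((e' a : RR E) : (E × ℝ) →ₗ[ℝ] (E × ℝ)) :=
    fun a => aa_real hrsp hol N hN _ (e a).2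
  have hcom : ∀ a b, Commute (e' a) (e' b) := fun a b => aa_comm hol N hN _ _ (e a).2 (e b).2
  have hsnd : ∀ a x, (e' a x).2 = 0 := fun a => aa_snd hol N _ (e a).2
  let Φ : (Fin d → ℝ) → E → E := fun a p => (NormedSpace.exp (e' a) (p, 1)).1
  have hΦ : ∀ a p, NormedSpace.exp (e' a) (p, 1) = (Φ a p, 1) := fun a p =>
    Prod.ext rfl (by
      have h1 := exp_phi (e' a) (ContinuousLinearMap.snd ℝ E ℝ) 0
        (fun x => by rw [zero_mul]; exact hsnd a x) (p, 1)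
      rw [Real.exp_zero, one_mul] at h1
      exact h1)
  have hfix : ∀ a p, Φ a p = p ↔ e' a (p, 1) = 0 := by
    intro a p
    constructor
    · intro h
      refine (hrsp (E × ℝ)).2.2 (e' a) _ (hreal a) ?_
      rw [hΦ, h]
    · intro h
      have := fix_of' _ _ h
      rw [hΦ] at this
      exact congrArg Prod.fst this
  have hnu : ∀ ν a, NormedSpace.exp (e' a) = hmm (hol ν) → ∀ p, hol ν p = Φ a p := by
    intro ν a h p
    have h1 := hΦ a p
    rw [h, hmm_point] at h1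
    exact congrArg Prod.fst h1
  refine ⟨d, Φ, th hol N e, ?_, ?_, ?_, ?_, ?_, ?_, ?_, ?_, ?_⟩
  · -- smooth
    have h1 : ContDiff ℝ 1 (NormedSpace.exp : RR E → RR E) :=
      contDiff_iff_contDiffAt.mpr fun x => (NormedSpace.exp_analytic x).contDiffAt
    have h2 : ContDiff ℝ 1 (fun x : (Fin d → ℝ) × E =>
        NormedSpace.exp (e' x.1)) := h1.comp (e'.contDiff.comp contDiff_fst)
    have h3 : ContDiff ℝ 1 (fun x : (Fin d → ℝ) × E => ((x.2, 1) : E × ℝ)) :=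
      contDiff_snd.prodMk contDiff_const
    exact contDiff_fst.comp (h2.clm_apply h3)
  · -- zero
    intro p
    show (NormedSpace.exp (e' 0) (p, 1)).1 = p
    rw [map_zero, NormedSpace.exp_zero]
    rfl
  · -- add
    intro a b p
    show (NormedSpace.exp (e' (a + b)) (p, 1)).1 = (NormedSpace.exp (e' a) (Φ b p, 1)).1
    rw [map_add, exp_add' (hcom a b), ← hΦ b p]
    rfl
  · -- equi
    intro γ a p
    have h1 : e' (th hol N e γ a) =
        (hu (hol γ) : RR E) * e' a * ((hu (hol γ))⁻¹ : (RR E)ˣ) := by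
      rw [he', th_apply]
      rfl
    have h2 : NormedSpace.exp (e' (th hol N e γ a)) (hol γ p, 1) =
        hmm (hol γ) (NormedSpace.exp (e' a) (p, 1)) := by
      rw [h1, exp_conj', ← hmm_point]
      show (hu (hol γ) : RR E) (NormedSpace.exp (e' a)
        ((((hu (hol γ))⁻¹ : (RR E)ˣ) * (hu (hol γ) : RR E) : RR E) (p, 1))) = _
      rw [Units.inv_mul]
      rfl
    rw [hΦ, hΦ, hmm_point] at h2
    exact (congrArg Prod.fst h2).symm
  · -- spn
    rw [eq_top_iff]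
    intro a _
    have h1 : ∀ (y : RR E) (hy : y ∈ AA hol N), e.symm ⟨y, hy⟩ ∈
        Submodule.span ℝ {a | ∃ ν ∈ N, ∀ p, hol ν p = Φ a p} := by
      intro y hy
      refine Submodule.span_induction (p := fun y hy => e.symm ⟨y, hy⟩ ∈
        Submodule.span ℝ {a | ∃ ν ∈ N, ∀ p, hol ν p = Φ a p}) ?_ ?_ ?_ ?_ hy
      · intro x hx
        obtain ⟨_, _, ν, hν, he, _⟩ := hx
        refine Submodule.subset_span ⟨ν, hν, hnu ν _ ?_⟩
        rw [he', e.apply_symm_apply]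
        exact he
      · have : e.symm ⟨0, Submodule.zero_mem _⟩ = 0 := e.symm.map_zero
        rw [this]; exact Submodule.zero_mem _
      · intro x y hx hy h1 h2
        have : e.symm ⟨x + y, Submodule.add_mem _ hx hy⟩ = e.symm ⟨x, hx⟩ + e.symm ⟨y, hy⟩ :=
          e.symm.map_add ⟨x, hx⟩ ⟨y, hy⟩
        rw [this]; exact Submodule.add_mem _ h1 h2
      · intro r x hx h1
        have : e.symm ⟨r • x, Submodule.smul_mem _ r hx⟩ = r • e.symm ⟨x, hx⟩ :=
          e.symm.map_smul r ⟨x, hx⟩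
        rw [this]; exact Submodule.smul_mem _ r h1
    have h2 := h1 (e a).1 (e a).2
    have h3 : e.symm ⟨(e a).1, (e a).2⟩ = a := e.symm_apply_apply a
    rwa [h3] at h2
  · -- sub
    intro ν hν
    obtain ⟨l, hl1, hl2, hl3, hl4⟩ := lg hlog hlr (hol ν) (hu' ν hν)
    have hl : l ∈ AA hol N := Submodule.subset_span ⟨hl1, hl2, ν, hν, hl3, hl4⟩
    refine ⟨e.symm ⟨l, hl⟩, hnu ν _ ?_⟩
    rw [he', e.apply_symm_apply]
    exact hl3
  · -- faith
    intro a h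
    have h1 : ∀ p, e' a (p, 1) = 0 := fun p => (hfix a p).mp (h p)
    have h2 : e' a = 0 := by
      refine ContinuousLinearMap.ext fun x => ?_
      have h3 : x = (x.1, 1) + (x.2 - 1) • ((0, 1) : E × ℝ) := by
        refine Prod.ext ?_ ?_
        · show x.1 = x.1 + (x.2 - 1) • (0 : E)
          rw [smul_zero, add_zero]
        · show x.2 = 1 + (x.2 - 1) * 1
          ring
      rw [h3, map_add, map_smul, h1, h1, smul_zero, add_zero]
      rfl
    have h4 : e a = 0 := Subtype.ext h2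
    exact e.map_eq_zero_iff.mp h4
  · -- line
    intro a p h t
    rw [hfix] at h ⊢
    rw [map_smul]
    show t • e' a (p, 1) = 0
    rw [h, smul_zero]
  · -- imm
    intro a p h
    rw [hfix]
    let ev : RR E →L[ℝ] E := (ContinuousLinearMap.fst ℝ E ℝ).comp
      (ContinuousLinearMap.apply ℝ (E × ℝ) ((p, 1) : E × ℝ))
    have h1 : HasFDerivAt (NormedSpace.exp : RR E → RR E) (1 : RR E →L[ℝ] RR E) (e' 0) := by
      rw [map_zero]
      exact hasFDerivAt_exp_zero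
    have h2 : HasFDerivAt (fun b => Φ b p) (ev.comp ((1 : RR E →L[ℝ] RR E).comp e')) 0 :=
      ev.hasFDerivAt.comp 0 (h1.comp 0 e'.hasFDerivAt)
    rw [h2.fderiv] at h
    refine Prod.ext h (hsnd a _)

end Pool.Agent.P8H84.TU
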