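import Pool.Agent.P8H70.TU.Stm
import Pool.Agent.P8H70.TR.Nik

/-!
# Project TU (helper70), package RED
-/

set_option autoImplicit false

open Complex MeasureTheory Polynomial Finset ComplexConjugate

namespace Pool.Agent.P8H84.TU

open Pool.Agent.P8H70.TR Pool.Agent.P8H70.TU

/-- Jensen's inequality for the power `p ≤ 1` -/
theorem jensen (g : ℝ → ℝ) (hgc : Continuous g) (hg0 : ∀ t, 0 ≤ g t) (p : ℝ) (hp : 0 < p)
    (hp1 : p ≤ 1) : ∫ t in (0 : ℝ)..(2 * Real.pi), g t ^ p ≤
      (2 * Real.pi) ^ (1 - p) * (∫ t in (0 : ℝ)..(2 * Real.pi), g t) ^ p := by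
  have hpi : 0 < 2 * Real.pi := by positivity
  have hG : 0 ≤ ∫ t in (0 : ℝ)..(2 * Real.pi), g t :=
    intervalIntegral.integral_nonneg hpi.le fun t _ => hg0 t
  have hgi : IntervalIntegrable g volume 0 (2 * Real.pi) := hgc.intervalIntegrable _ _
  rcases hG.eq_or_lt with h | h
  · have h1 : g =ᵐ[volume.restrict (Set.Ioc 0 (2 * Real.pi))] 0 :=
      (intervalIntegral.integral_eq_zero_iff_of_le_of_nonneg_ae hpi.le
        (Filter.Eventually.of_forall fun t => hg0 t) hgi).1 h.symm
    have h2 : ∫ t in (0 : ℝ)..(2 * Real.pi), g t ^ p = 0 := by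
      rw [intervalIntegral.integral_of_le hpi.le]
      have h3 : (fun t => g t ^ p) =ᵐ[volume.restrict (Set.Ioc 0 (2 * Real.pi))] fun _ => (0 : ℝ) := by
        filter_upwards [h1] with t ht
        rw [ht, Pi.zero_apply, Real.zero_rpow hp.ne']
      rw [integral_congr_ae h3, integral_zero]
    rw [h2]
    positivity
  · set G := ∫ t in (0 : ℝ)..(2 * Real.pi), g t with hGdef
    obtain ⟨m, hm⟩ : ∃ m : ℝ, m = G / (2 * Real.pi) := ⟨_, rfl⟩
    have hm0 : 0 < m := by rw [hm]; positivity
    have pt : ∀ t, g t ^ p ≤ m ^ p * (1 - p) + m ^ p * (p / m) * g t := by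
      intro t
      have b := rpow_one_add_le_one_add_mul_self (s := g t / m - 1) (by
        have : 0 ≤ g t / m := div_nonneg (hg0 t) hm0.le
        linarith) (p := p) hp.le hp1
      have e3 : 1 + (g t / m - 1) = g t / m := by ring
      rw [e3] at b
      have e4 : g t ^ p = m ^ p * (g t / m) ^ p := by
        rw [← Real.mul_rpow hm0.le (div_nonneg (hg0 t) hm0.le), mul_div_cancel₀ _ hm0.ne']
      rw [e4]
      refine (mul_le_mul_of_nonneg_left b (by positivity)).trans (le_of_eq ?_)
      field_simp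
      ring
    calc ∫ t in (0 : ℝ)..(2 * Real.pi), g t ^ p
        ≤ ∫ t in (0 : ℝ)..(2 * Real.pi), (m ^ p * (1 - p) + m ^ p * (p / m) * g t) := by
          apply intervalIntegral.integral_mono_on hpi.le
          · exact (hgc.rpow_const fun t => Or.inr hp.le).intervalIntegrable _ _
          · apply Continuous.intervalIntegrable
            fun_prop
          · intro t _
            exact pt t
      _ = m ^ p * (1 - p) * (2 * Real.pi) + m ^ p * (p / m) * G := by
          rw [intervalIntegral.integral_add (by simp) (by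
              apply Continuous.intervalIntegrable
              fun_prop), intervalIntegral.integral_const,
            intervalIntegral.integral_const_mul (m ^ p * (p / m)) g, ← hGdef]
          simp only [sub_zero, smul_eq_mul]
          ring
      _ = 2 * Real.pi * m ^ p := by
          have e5 : G = m * (2 * Real.pi) := by rw [hm]; field_simp
          rw [e5]
          field_simp
          ring
      _ = (2 * Real.pi) ^ (1 - p) * G ^ p := by
          rw [hm, Real.div_rpow h.le hpi.le, Real.rpow_sub hpi, Real.rpow_one]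
          field_simp

/-- a coefficient is at most the normalised `L_1` norm -/
theorem coeff_le (n : ℕ) (a : ℕ → ℂ) (j : ℕ) (hj : j ∈ range (n + 1)) :
    2 * Real.pi * ‖a j‖ ≤ ∫ t in (0 : ℝ)..(2 * Real.pi), ‖tp n a t‖ := by
  have hpi : 0 < 2 * Real.pi := by positivity
  have key : ∫ t in (0 : ℝ)..(2 * Real.pi), tp n a t * cexp (((-(j : ℝ) * t : ℝ) : ℂ) * I) =
      a j * ((2 * Real.pi : ℝ) : ℂ) := by
    have e : ∀ t : ℝ, tp n a t * cexp (((-(j : ℝ) * t : ℝ) : ℂ) * I) =
        ∑ l ∈ range (n + 1), a l * cexp ((((l - j : ℤ) * t : ℝ) : ℂ) * I) := by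
      intro t
      unfold tp
      rw [Finset.sum_mul]
      refine Finset.sum_congr rfl fun l _ => ?_
      rw [mul_assoc, ← Complex.exp_add]
      congr 2
      push_cast
      ring
    rw [intervalIntegral.integral_congr fun t _ => e t,
      intervalIntegral.integral_finsetSum fun l _ => by
        apply Continuous.intervalIntegrable; fun_prop]
    have e3 : ∀ l ∈ range (n + 1), ∫ t in (0 : ℝ)..(2 * Real.pi),
        a l * cexp ((((l - j : ℤ) * t : ℝ) : ℂ) * I) =
        if l = j then a l * ((2 * Real.pi : ℝ) : ℂ) else 0 := by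
      intro l _
      rw [intervalIntegral.integral_const_mul, int_exp]
      by_cases h : l = j
      · subst h; simp
      · rw [if_neg h, if_neg (by omega), mul_zero]
    rw [Finset.sum_congr rfl e3, Finset.sum_ite_eq' (range (n + 1)) j, if_pos hj]
  have h1 : ‖a j * ((2 * Real.pi : ℝ) : ℂ)‖ = 2 * Real.pi * ‖a j‖ := by
    rw [norm_mul, Complex.norm_real, Real.norm_eq_abs, abs_of_pos hpi, mul_comm]
  rw [← h1, ← key]
  refine (intervalIntegral.norm_integral_le_integral_norm hpi.le).trans (le_of_eq ?_)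
  refine intervalIntegral.integral_congr fun t _ => ?_
  show ‖tp n a t * cexp (((-(j : ℝ) * t : ℝ) : ℂ) * I)‖ = ‖tp n a t‖
  rw [norm_mul, Complex.norm_exp_ofReal_mul_I, mul_one]

theorem red : S_RED := by
  intro p hp hp1 n K hK hL P hdeg
  have hpi : 0 < 2 * Real.pi := by positivity
  have hn1 : (0 : ℝ) < (n : ℝ) + 1 := by positivity
  have hdt : ∀ t : ℝ, (trunc P).eval (cexp (t * I)) = tp n (fun j => phi (P.coeff j)) t :=
    trunc_eq_tp n P hdeg
  have hdp : ∀ t : ℝ, P.eval (cexp (t * I)) = tp n P.coeff t := eval_eq_tp n P hdeg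
  set f : ℝ → ℝ := fun t => ‖tp n P.coeff t‖ with hf
  set g : ℝ → ℝ := fun t => ‖tp n (fun j => phi (P.coeff j)) t‖ with hg
  have hfc : Continuous f := (continuous_tp n _).norm
  have hgc : Continuous g := (continuous_tp n _).norm
  have hf0 : ∀ t, 0 ≤ f t := fun t => norm_nonneg _
  have hg0 : ∀ t, 0 ≤ g t := fun t => norm_nonneg _
  have eI : ∀ q : ℝ, Ip q P = ∫ t in (0 : ℝ)..(2 * Real.pi), f t ^ q := by
    intro q
    unfold Ip
    refine intervalIntegral.integral_congr fun t _ => ?_
    show ‖P.eval (cexp (t * I))‖ ^ q = _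
    rw [hdp t]
  have eT : ∀ q : ℝ, Ip q (trunc P) = ∫ t in (0 : ℝ)..(2 * Real.pi), g t ^ q := by
    intro q
    unfold Ip
    refine intervalIntegral.integral_congr fun t _ => ?_
    show ‖(trunc P).eval (cexp (t * I))‖ ^ q = _
    rw [hdt t]
  set F := ∫ t in (0 : ℝ)..(2 * Real.pi), f t with hF
  set G := ∫ t in (0 : ℝ)..(2 * Real.pi), g t with hG
  have hF0 : 0 ≤ F := intervalIntegral.integral_nonneg hpi.le fun t _ => hf0 t
  have hG0 : 0 ≤ G := intervalIntegral.integral_nonneg hpi.le fun t _ => hg0 t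
  have hGF : G ≤ K * F := by
    have h := hL P hdeg
    unfold Pool.Agent.P8H70.TR.Lp at h
    rw [eI, eT] at h
    simpa using h
  have hJ := jensen g hgc hg0 p hp hp1
  rw [← hG] at hJ
  -- the sup norm
  set Bd : ℝ := ((n : ℝ) + 1) / (2 * Real.pi) * F with hBd
  have hB : ∀ t, f t ≤ Bd := by
    intro t
    have h1 : f t ≤ ∑ j ∈ range (n + 1), ‖P.coeff j‖ := by
      show ‖tp n P.coeff t‖ ≤ _
      unfold tp
      refine (norm_sum_le _ _).trans (Finset.sum_le_sum fun j _ => ?_)
      rw [norm_mul, Complex.norm_exp_ofReal_mul_I, mul_one]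
    have h2 : ∑ j ∈ range (n + 1), ‖P.coeff j‖ ≤ ∑ _j ∈ range (n + 1), F / (2 * Real.pi) := by
      refine Finset.sum_le_sum fun j hj => ?_
      rw [le_div_iff₀ hpi, mul_comm]
      exact coeff_le n P.coeff j hj
    rw [Finset.sum_const, Finset.card_range, nsmul_eq_mul] at h2
    push_cast at h2
    refine h1.trans (h2.trans (le_of_eq ?_))
    rw [hBd]
    ring
  have hIp : 0 ≤ ∫ t in (0 : ℝ)..(2 * Real.pi), f t ^ p :=
    intervalIntegral.integral_nonneg hpi.le fun t _ => Real.rpow_nonneg (hf0 t) _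
  have hFp : F ^ p ≤ (((n : ℝ) + 1) / (2 * Real.pi)) ^ (1 - p) *
      ∫ t in (0 : ℝ)..(2 * Real.pi), f t ^ p := by
    rcases hF0.eq_or_lt with h | h
    · rw [← h, Real.zero_rpow hp.ne']
      positivity
    · have h1 : F ≤ Bd ^ (1 - p) * ∫ t in (0 : ℝ)..(2 * Real.pi), f t ^ p := by
        rw [hF, ← intervalIntegral.integral_const_mul]
        apply intervalIntegral.integral_mono_on hpi.le
        · exact hfc.intervalIntegrable _ _
        · apply Continuous.intervalIntegrable
          exact continuous_const.mul (hfc.rpow_const fun t => Or.inr hp.le)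
        · intro t _
          have e6 : f t = f t ^ (1 - p) * f t ^ p := by
            rcases (hf0 t).eq_or_lt with h' | h'
            · rw [← h', Real.zero_rpow hp.ne', mul_zero]
            · rw [← Real.rpow_add h']
              simp
          calc f t = f t ^ (1 - p) * f t ^ p := e6
            _ ≤ Bd ^ (1 - p) * f t ^ p := by
              refine mul_le_mul_of_nonneg_right ?_ (Real.rpow_nonneg (hf0 t) _)
              exact Real.rpow_le_rpow (hf0 t) (hB t) (by linarith)
      rw [hBd, Real.mul_rpow (by positivity) hF0] at h1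
      have h3 : F = F ^ p * F ^ (1 - p) := by
        rw [← Real.rpow_add h]
        simp
      have h4 : 0 < F ^ (1 - p) := by positivity
      refine le_of_mul_le_mul_right ?_ h4
      rw [← h3]
      refine h1.trans (le_of_eq ?_)
      ring
  have hmain : Ip p (trunc P) ≤ K ^ p * ((n : ℝ) + 1) ^ (1 - p) * Ip p P := by
    rw [eT, eI]
    have h1 : G ^ p ≤ K ^ p * F ^ p := by
      rw [← Real.mul_rpow hK hF0]
      exact Real.rpow_le_rpow hG0 hGF hp.le
    have h2 : G ^ p ≤ K ^ p * ((((n : ℝ) + 1) / (2 * Real.pi)) ^ (1 - p) *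
        ∫ t in (0 : ℝ)..(2 * Real.pi), f t ^ p) :=
      h1.trans (mul_le_mul_of_nonneg_left hFp (Real.rpow_nonneg hK _))
    refine hJ.trans ((mul_le_mul_of_nonneg_left h2 (by positivity)).trans (le_of_eq ?_))
    rw [Real.div_rpow hn1.le hpi.le]
    have h5 : (2 * Real.pi) ^ (1 - p) ≠ 0 := (Real.rpow_pos_of_pos hpi _).ne'
    field_simp
  have hIpP : 0 ≤ Ip p P := by rw [eI]; exact hIp
  have hIpT : 0 ≤ Ip p (trunc P) := by
    rw [eT]
    exact intervalIntegral.integral_nonneg hpi.le fun t _ => Real.rpow_nonneg (hg0 t) _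
  unfold Pool.Agent.P8H70.TR.Lp
  calc Ip p (trunc P) ^ (1 / p) ≤ (K ^ p * ((n : ℝ) + 1) ^ (1 - p) * Ip p P) ^ (1 / p) :=
        Real.rpow_le_rpow hIpT hmain (by positivity)
    _ = K * ((n : ℝ) + 1) ^ (1 / p - 1) * Ip p P ^ (1 / p) := by
        rw [Real.mul_rpow (by positivity) hIpP, Real.mul_rpow (by positivity) (by positivity),
          ← Real.rpow_mul hK, ← Real.rpow_mul hn1.le, mul_one_div_cancel hp.ne', Real.rpow_one]
        congr 3
        field_simp

end Pool.Agent.P8H84.TU
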